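import Pool.Agent.W_0649c_h65.FinalM
import Pool.Agent.W_0649c_h65.Reps

/-! MP_0649d4_al, Q1: the inequality `k(F, α) ≤ c([S, S]) m(F, α, d)` is false. The fusion system of
`SL₂(3)⁷ ≀ C₂` on its Sylow `2`-subgroup `Q₈⁷ ≀ C₂` with `α = 1` is a counterexample. The
definitions are in `Pool.Agent.W_0649d4.Defs`, `Pool.Agent.W_0649c_h65.MDefs` and
`Pool.Agent.W_0649c_h65.Reps`. -/

namespace Pool.Agent.Results.MP_0649d4_al.Disproof

open MNF MND

/-- For every algebraically closed field `k` of characteristic `2` there are a finite `2`-group `S`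
of order `2 ^ d` (a subgroup of a finite group `G`), a saturated fusion system `F` on `S` and an
`F`-compatible family `α` with values in `kˣ` such that `k(F, α) > c([S, S]) m(F, α, d)`
(`Exceeds`: the representatives needed for `k` and `m` exist, and the inequality holds for all
choices of them). -/
theorem result {k : Type*} [Field k] [IsAlgClosed k] [CharP k 2] :
    ∃ (G : Type) (_ : Group G) (_ : Finite G) (S : Subgroup G) (d : ℕ) (F : FusionSystem S)
      (α : ∀ P : Subgroup G, Cocycle (F.Out P) k),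
      Nat.card S = 2 ^ d ∧ F.Saturated 2 ∧ Compatible F α ∧ Exceeds F 2 d α := by
  obtain ⟨G, hG, hf, S, d, F, α, h1, h2, h3, ⟨X, Y, h4, h5⟩, ⟨R, C, M, h6⟩, h7⟩ := mainM (k := k)
  exact ⟨G, hG, hf, S, d, F, α, h1, h2, h3, ⟨⟨X, Y⟩, h4, h5⟩, ⟨⟨R, C, M⟩, h6⟩,
    fun r s hr hs => h7 r.X r.Y s.R s.C s.M hr.1 hr.2 hs⟩

end Pool.Agent.Results.MP_0649d4_al.Disproof
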