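import Pool.Agent.W_0649d4.Final
import Pool.Agent.W_0649d4.Trans

/-! MP_0649d4_al: the inequality `k(F, α) ≤ c([S, S]) m(F, α, d)` for saturated fusion systems
whose essential subgroups are of three types, and for all saturated `F` on `S` with
`|[S, S]| = p`. All definitions are in `Pool.Agent.W_0649d4.Defs`. -/

namespace Pool.Agent.Results.MP_0649d4_al.EssentialTypes

open MNF

/-- Let `F` be a saturated fusion system on the finite `p`-group `S` (a subgroup of the finite
group `G`; take `G = S`), `α` an `F`-compatible family with values in `kˣ`, `k` algebraically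
closed of characteristic `p`. Suppose that every `F`-essential subgroup is of type (A), (A') or
(B), or that `|[S, S]| = p`. Then representatives `X`, `Y`, `Z` as in the definition of the
invariants exist, and `k(F, α) ≤ c([S, S]) m(F, α, d)` for any choice of them. -/
theorem result (p : ℕ) [Fact p.Prime] {k : Type*} [Field k] [IsAlgClosed k] [CharP k p]
    {G : Type*} [Group G] [Finite G] {S : Subgroup G} (hS : IsPGroup p S)
    (F : FusionSystem S) (hF : F.Saturated p)
    (hT : (∀ Q, F.Essential p Q → TypeA F p Q ∨ TypeA' S p Q ∨ TypeB p Q) ∨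
      Nat.card (commutator S) = p)
    (α : ∀ P : Subgroup G, Cocycle (F.Out P) k) (hα : Compatible F α) :
    (∃ (X : Finset S) (Y : S → Finset (Subgroup G)) (Z : Finset (S →* ℂˣ)),
      IsElementTransversal F X ∧ (∀ x ∈ X, IsCentricTransversal (F.cent x) (Y x)) ∧
        IsLinTransversal F Z) ∧
    ∀ (X : Finset S) (Y : S → Finset (Subgroup G)) (Z : Finset (S →* ℂˣ)),
      IsElementTransversal F X → (∀ x ∈ X, IsCentricTransversal (F.cent x) (Y x)) →
        IsLinTransversal F Z →
        kInv F α X Y ≤ Nat.card (ConjClasses (commutator S)) * mTop F α Z :=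
  ⟨exists_transversals F, fun X Y Z hX hY hZ => main F p hS hF hT α hα X hX Y hY Z hZ⟩

end Pool.Agent.Results.MP_0649d4_al.EssentialTypes
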