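import Pool.Agent.W_0649q_h65.Uniform

/-! MP_0649d4_al: the uniform form of the inequality, `k(F, α) ≤ f(c([S, S])) m(F, α, d)`, for all
primes, all saturated fusion systems and all compatible families. All definitions are in
`Pool.Agent.W_0649d4.Defs`. -/

namespace Pool.Agent.Results.MP_0649d4_al.UniformBound

open MNF

universe u w

/-- There is a function `f : ℕ → ℕ` such that for every prime `p`, every algebraically closed field
`k` of characteristic `p`, every saturated fusion system `F` on a finite `p`-group `S` (a subgroup
of the finite group `G`; take `G = S`) and every `F`-compatible family `α` with values in `kˣ`: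
representatives `X`, `Y`, `Z` as in the definition of the invariants exist, and
`k(F, α) ≤ f(c([S, S])) m(F, α, d)` for any choice of them. -/
theorem result : ∃ f : ℕ → ℕ, ∀ (p : ℕ) [Fact p.Prime] {k : Type w} [Field k]
    [IsAlgClosed k] [CharP k p] {G : Type u} [Group G] [Finite G] {S : Subgroup G}
    (_hS : IsPGroup p S) (F : FusionSystem S) (_hF : F.Saturated p)
    (α : ∀ P : Subgroup G, Cocycle (F.Out P) k) (_hα : Compatible F α),
    (∃ (X : Finset S) (Y : S → Finset (Subgroup G)) (Z : Finset (S →* ℂˣ)),
      IsElementTransversal F X ∧ (∀ x ∈ X, IsCentricTransversal (F.cent x) (Y x)) ∧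
        IsLinTransversal F Z) ∧
    ∀ (X : Finset S) (Y : S → Finset (Subgroup G)) (Z : Finset (S →* ℂˣ)),
      IsElementTransversal F X → (∀ x ∈ X, IsCentricTransversal (F.cent x) (Y x)) →
        IsLinTransversal F Z →
        kInv F α X Y ≤ f (Nat.card (ConjClasses (commutator S))) * mTop F α Z :=
  MNQ.uniform_bound

end Pool.Agent.Results.MP_0649d4_al.UniformBound
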